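import Pool.Agent.W297.LP.Stm

/-!
Project LP, part START.
-/

set_option autoImplicit false

open Finset

namespace Pool.Agent.W597.LP

open Pool.Agent.W297.LP

lemma rt_le_sz (T : Tr) : T.rt ≤ T.sz := by
  induction T with
  | pt => exact le_refl _
  | br A B ihA _ =>
    simp only [Tr.rt, Tr.sz]
    omega

section

variable {V : Type} [Fintype V] [DecidableEq V]

lemma split {k : ℕ} {e d : ℝ} {W : V → V → ℝ} {Vi : Fin (k - 1) → Finset V} {A1 A2 : Finset V}
    (hT : Typ k e d W Vi A1 A2) (F : V → ℝ) :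
    ∑ x, F x = ∑ i, ∑ x ∈ Vi i, F x + ∑ x ∈ A1, F x + ∑ x ∈ A2, F x := by
  have h1 : ∑ i, ∑ x ∈ Vi i, F x = ∑ x ∈ univ.biUnion Vi, F x := by
    rw [Finset.sum_biUnion]
    intro i _ j _ hij
    exact hT.disj i j hij
  have d1 : Disjoint (univ.biUnion Vi) A1 := by
    rw [Finset.disjoint_biUnion_left]
    exact fun i _ => hT.d1 i
  have d2 : Disjoint (univ.biUnion Vi ∪ A1) A2 := by
    rw [Finset.disjoint_union_left, Finset.disjoint_biUnion_left]
    exact ⟨fun i _ => hT.d2 i, hT.d12⟩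
  rw [h1, ← Finset.sum_union d1, ← Finset.sum_union d2]
  refine Finset.sum_congr ?_ fun _ _ => rfl
  ext x
  simp only [mem_univ, mem_union, mem_biUnion, true_and, true_iff]
  rcases hT.cov x with h | h | h
  · exact Or.inl (Or.inr h)
  · exact Or.inr h
  · exact Or.inl (Or.inl h)

lemma ker_nonneg {W : V → V → ℝ} (h : Ker W) (x y : V) : 0 ≤ W x y := by
  rcases h.zo x y with h | h <;> rw [h] <;> norm_num

lemma ker_le_one {W : V → V → ℝ} (h : Ker W) (x y : V) : W x y ≤ 1 := by
  rcases h.zo x y with h | h <;> rw [h] <;> norm_num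

lemma dg_nonneg {W : V → V → ℝ} (h : Ker W) (x : V) : 0 ≤ dg W x :=
  div_nonneg (Finset.sum_nonneg fun y _ => ker_nonneg h x y) (Nat.cast_nonneg _)

lemma dg_le_one {W : V → V → ℝ} (h : Ker W) (hn : 0 < Fintype.card V) (x : V) : dg W x ≤ 1 := by
  unfold dg
  rw [div_le_one (by exact_mod_cast hn)]
  calc ∑ y, W x y ≤ ∑ _y : V, (1 : ℝ) := Finset.sum_le_sum fun y _ => ker_le_one h x y
    _ = (Fintype.card V : ℝ) := by simp

/-- `x log (x / m) ≥ x - m` -/
lemma xlog {x m : ℝ} (hx : 0 ≤ x) (hm : 0 < m) : x - m ≤ x * Real.log (x / m) := by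
  rcases hx.eq_or_lt with h | h
  · rw [← h]; simp; exact hm.le
  · have h1 := Real.one_sub_inv_le_log_of_pos (div_pos h hm)
    rw [inv_div] at h1
    have h2 := mul_le_mul_of_nonneg_left h1 h.le
    have h3 : x * (1 - m / x) = x - m := by field_simp
    linarith

end

theorem start : SWalk2 → SStart := by
  intro hW2 k hk η hη
  have hk' : (4 : ℝ) ≤ k := by exact_mod_cast hk
  obtain ⟨m, hm⟩ : ∃ m, m = mu k := ⟨_, rfl⟩
  have hm0 : 0 < m := by
    rw [hm]; unfold mu
    exact div_pos one_pos (by linarith)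
  have hm1 : m ≤ 1 := by
    rw [hm]; unfold mu
    rw [div_le_one (by linarith)]
    linarith
  obtain ⟨δ, hδ⟩ : ∃ δ, δ = min (m ^ 2 / 32) η := ⟨_, rfl⟩
  have hδ0 : 0 < δ := by
    rw [hδ]; exact lt_min (by positivity) hη
  have hδ1 : δ ≤ m ^ 2 / 32 := by rw [hδ]; exact min_le_left _ _
  have hδ2 : δ ≤ η := by rw [hδ]; exact min_le_right _ _
  refine ⟨min (m / 2) (δ * m / 4), δ * m ^ 2 / 4, lt_min (by positivity) (by positivity),
    by positivity, ?_⟩
  intro V _ _ W Q Vi A1 A2 e d g hKW hn hT hQ hg ha T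
  rw [← hm]
  obtain ⟨hg1, hg2⟩ := le_min_iff.1 hg
  have hn' : (0 : ℝ) < Fintype.card V := by exact_mod_cast hn
  -- nonnegative version of `g`
  obtain ⟨g', hg'⟩ : ∃ g', g' = max g 0 := ⟨_, rfl⟩
  have hg'0 : 0 ≤ g' := by rw [hg']; exact le_max_right _ _
  have hg'1 : g' ≤ m / 2 := by rw [hg']; exact max_le hg1 (by positivity)
  have hg'2 : g' ≤ δ * m / 4 := by rw [hg']; exact max_le hg2 (by positivity)
  have hdv : ∀ i, ∀ x ∈ Vi i, m - g' ≤ dg Q x ∧ dg Q x ≤ m + g' := by
    intro i x hx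
    have h1 := hQ.dv i x hx
    rw [← hm, abs_le] at h1
    have h2 : g ≤ g' := by rw [hg']; exact le_max_left _ _
    constructor <;> linarith
  obtain ⟨a, haa⟩ : ∃ a, a = ms A1 := ⟨_, rfl⟩
  have ha0 : 0 ≤ a := by rw [haa]; unfold ms; positivity
  rw [← haa] at ha
  have hKQ := hQ.ker
  have hdn := dg_nonneg hKQ
  have hd1 := dg_le_one hKQ hn
  obtain ⟨c1, hc1⟩ : ∃ c1, c1 = 2 * g' / m := ⟨_, rfl⟩
  obtain ⟨th, hth⟩ : ∃ th, th = 2 / m * a := ⟨_, rfl⟩
  have hc10 : 0 ≤ c1 := by rw [hc1]; positivity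
  have hth0 : 0 ≤ th := by rw [hth]; positivity
  have hc1δ : c1 ≤ δ / 2 := by
    rw [hc1, div_le_iff₀ hm0]
    linarith
  have hthδ : th * (1 / m) ≤ δ / 2 := by
    rw [hth]
    have : 2 / m * a * (1 / m) = 2 * a / m ^ 2 := by field_simp
    rw [this, div_le_iff₀ (by positivity)]
    linarith
  -- the values of `lf`
  have hfV : ∀ i, ∀ x ∈ Vi i, -c1 ≤ lf Q m x ∧ lf Q m x ≤ c1 := by
    intro i x hx
    obtain ⟨h1, h2⟩ := hdv i x hx
    have hpos : 0 < dg Q x := by linarith
    unfold lf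
    constructor
    · have h3 := Real.one_sub_inv_le_log_of_pos (div_pos hpos hm0)
      rw [inv_div] at h3
      have h4 : m / dg Q x ≤ 1 + c1 := by
        rw [div_le_iff₀ hpos, hc1]
        have h5 : 1 + 2 * g' / m = (m + 2 * g') / m := by field_simp
        rw [h5, div_mul_eq_mul_div, le_div_iff₀ hm0]
        nlinarith
      linarith
    · have h3 := Real.log_le_sub_one_of_pos (div_pos hpos hm0)
      have h4 : dg Q x / m ≤ 1 + c1 := by
        rw [div_le_iff₀ hm0, hc1, add_mul, div_mul_cancel₀ _ hm0.ne']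
        linarith
      linarith
  have hf2 : ∀ x ∈ A2, lf Q m x = 0 := by
    intro x hx
    unfold lf
    rw [hQ.dz x hx, zero_div, Real.log_zero]
  have hf1 : ∀ x ∈ A1, 0 ≤ lf Q m x ∧ lf Q m x ≤ 1 / m := by
    intro x hx
    have h1 := hQ.da x hx
    rw [← hm] at h1
    have hpos : 0 < dg Q x := by linarith
    unfold lf
    constructor
    · exact Real.log_nonneg (by rw [le_div_iff₀ hm0]; linarith)
    · have h3 := Real.log_le_sub_one_of_pos (div_pos hpos hm0)
      have h4 : dg Q x / m ≤ 1 / m := div_le_div_of_nonneg_right (hd1 x) hm0.le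
      linarith
  have hup : ∀ x, x ∉ A1 → lf Q m x ≤ c1 := by
    intro x hx
    rcases hT.cov x with h | h | ⟨i, h⟩
    · exact absurd h hx
    · rw [hf2 x h]; exact hc10
    · exact (hfV i x h).2
  have hlow : ∀ x, -c1 ≤ lf Q m x := by
    intro x
    rcases hT.cov x with h | h | ⟨i, h⟩
    · have := (hf1 x h).1; linarith
    · rw [hf2 x h]; linarith
    · exact (hfV i x h).1
  obtain ⟨w1, w2, w3⟩ := hW2 V Q hKQ m hm0
  have w1 := w1 T
  have w2 := w2 A1 c1 (1 / m) th hc10 (by positivity) hth0 hQ.aa hup hf1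
    (by
      intro x hx
      have := hQ.th x hx
      rw [← hm, ← haa, ← hth] at this
      exact this) T
  have w3 := w3 c1 hc10 hlow T
  obtain ⟨s, hs⟩ : ∃ s : ℝ, s = T.sz := ⟨_, rfl⟩
  obtain ⟨r, hr⟩ : ∃ r : ℝ, r = T.rt := ⟨_, rfl⟩
  have hrs : r ≤ s := by rw [hr, hs]; exact_mod_cast rt_le_sz T
  have hr0 : 0 ≤ r := by rw [hr]; positivity
  have hs0 : 0 ≤ s := by rw [hs]; positivity
  rw [← hs] at w1 w3
  rw [← hs, ← hr] at w2
  rw [← hs, ← haa]
  have hthp : 0 ≤ th * (1 / m) := by positivity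
  constructor
  · -- the main inequality
    rw [split hT, split hT (fun x => dg Q x * lf Q m x)] at w1
    have z1 : ∑ x ∈ A2, dg Q x * gt Q m T x = 0 :=
      Finset.sum_eq_zero fun x hx => by rw [hQ.dz x hx, zero_mul]
    have z2 : ∑ x ∈ A2, dg Q x * lf Q m x = 0 :=
      Finset.sum_eq_zero fun x hx => by rw [hQ.dz x hx, zero_mul]
    rw [z1, z2, add_zero, add_zero] at w1
    -- upper bound on `A1`
    have hcard : (A1.card : ℝ) = a * Fintype.card V := by
      rw [haa]; unfold ms; field_simp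
    have u1 : ∑ x ∈ A1, dg Q x * gt Q m T x ≤
        a * Fintype.card V * (s * (c1 + th * (1 / m))) + r * ∑ x ∈ A1, dg Q x * lf Q m x := by
      calc ∑ x ∈ A1, dg Q x * gt Q m T x
          ≤ ∑ x ∈ A1, (s * (c1 + th * (1 / m)) + r * (dg Q x * lf Q m x)) := by
            refine Finset.sum_le_sum fun x hx => ?_
            have h1 := w2 x
            rw [if_pos hx] at h1
            have h2 := mul_le_mul_of_nonneg_left h1 (hdn x)
            have h3 : 0 ≤ s * c1 + (s - r) * (th * (1 / m)) := by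
              have := mul_nonneg (sub_nonneg.2 hrs) hthp
              have := mul_nonneg hs0 hc10
              linarith
            have h4 : dg Q x * (s * c1 + (s - r) * (th * (1 / m))) ≤
                s * c1 + (s - r) * (th * (1 / m)) := mul_le_of_le_one_left h3 (hd1 x)
            have h5 : 0 ≤ r * (th * (1 / m)) := mul_nonneg hr0 hthp
            have h6 : s * (c1 + th * (1 / m)) = s * c1 + (s - r) * (th * (1 / m)) +
                r * (th * (1 / m)) := by ring
            have h7 : dg Q x * (s * c1 + (s - r) * (th * (1 / m)) + r * lf Q m x) =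
                dg Q x * (s * c1 + (s - r) * (th * (1 / m))) + r * (dg Q x * lf Q m x) := by ring
            linarith
        _ = _ := by
            rw [Finset.sum_add_distrib, Finset.sum_const, nsmul_eq_mul, hcard, ← Finset.mul_sum]
    -- lower bounds
    have hgv := hQ.gv
    have hgs := hQ.gs
    rw [← hm, ← haa, le_div_iff₀ hn'] at hgv hgs
    have l1 : ∑ i, ∑ x ∈ Vi i, (dg Q x - m) ≤ ∑ i, ∑ x ∈ Vi i, dg Q x * lf Q m x :=
      Finset.sum_le_sum fun i _ => Finset.sum_le_sum fun x _ => xlog (hdn x) hm0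
    have l2 : ∑ x ∈ A1, (dg Q x - m) ≤ ∑ x ∈ A1, dg Q x * lf Q m x :=
      Finset.sum_le_sum fun x _ => xlog (hdn x) hm0
    rw [le_div_iff₀ hn']
    generalize ∑ i, ∑ x ∈ Vi i, dg Q x * lf Q m x = Fv at *
    generalize ∑ x ∈ A1, dg Q x * lf Q m x = Fa at *
    generalize ∑ i, ∑ x ∈ Vi i, dg Q x * gt Q m T x = Gv at *
    generalize ∑ x ∈ A1, dg Q x * gt Q m T x = Ga at *
    have k1 : r * (m ^ 2 / 16 * a * Fintype.card V) ≤ r * Fv :=
      mul_le_mul_of_nonneg_left (by linarith) hr0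
    have k2 : (s - r) * (m ^ 2 / 16 * a * Fintype.card V) ≤ (s - r) * (Fv + Fa) :=
      mul_le_mul_of_nonneg_left (by linarith) (sub_nonneg.2 hrs)
    have k3 : a * Fintype.card V * (s * (c1 + th * (1 / m))) ≤
        a * Fintype.card V * (s * (m ^ 2 / 32)) := by
      refine mul_le_mul_of_nonneg_left (mul_le_mul_of_nonneg_left ?_ hs0) (by positivity)
      linarith
    have k4 : Gv = s * (Fv + Fa) - Ga := by linarith
    rw [k4]
    have k5 : s * (Fv + Fa) = (s - r) * (Fv + Fa) + r * Fv + r * Fa := by ring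
    have k6 : s * (m ^ 2 / 32) * a * Fintype.card V =
        (s - r) * (m ^ 2 / 16 * a * Fintype.card V) + r * (m ^ 2 / 16 * a * Fintype.card V) -
          a * Fintype.card V * (s * (m ^ 2 / 32)) := by ring
    linarith
  · intro i x hx
    have hx1 : x ∉ A1 := fun h => Finset.disjoint_left.1 (hT.d1 i) hx h
    have h1 := w2 x
    rw [if_neg hx1, mul_zero, add_zero] at h1
    have h2 := w3 x
    have h3 : 0 ≤ r * (th * (1 / m)) := mul_nonneg hr0 hthp
    have h4 : s * (c1 + th * (1 / m)) ≤ s * η := mul_le_mul_of_nonneg_left (by linarith) hs0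
    have h5 : s * c1 ≤ s * η := mul_le_mul_of_nonneg_left (by linarith) hs0
    rw [abs_le]
    constructor
    · linarith
    · have h6 : s * c1 + (s - r) * (th * (1 / m)) = s * (c1 + th * (1 / m)) -
        r * (th * (1 / m)) := by ring
      linarith

end Pool.Agent.W597.LP
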